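import Pool.Agent.Lib.Q28.Bridge

namespace Pool.Agent.Results.MP_31e762_gt.AllGenera

open scoped ContDiff
open Set

/-- Euclidean three-space. -/
abbrev E3 := EuclideanSpace ℝ (Fin 3)

/-- The zero set of `φ` is a compact connected regular level surface. -/
def IsSurface (φ : E3 → ℝ) : Prop :=
  ContDiff ℝ ∞ φ ∧ (∀ x, φ x = 0 → fderiv ℝ φ x ≠ 0) ∧ IsCompact {x | φ x = 0} ∧
    IsConnected {x | φ x = 0}

/-- A smooth immersion of the zero set of `φ`: the restriction of a smooth map of space whose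
derivative is injective on the tangent planes of the zero set. -/
def IsImm (φ : E3 → ℝ) (f : {x // φ x = 0} → E3) : Prop :=
  ∃ F : E3 → E3, ContDiff ℝ ∞ F ∧ (∀ x : {x // φ x = 0}, F x = f x) ∧
    ∀ x : {x // φ x = 0}, ∀ w, fderiv ℝ φ x w = 0 → fderiv ℝ F x w = 0 → w = 0

/-- A smooth immersion without quadruple points. -/
def IsImm4 (φ : E3 → ℝ) (f : {x // φ x = 0} → E3) : Prop :=
  IsImm φ f ∧ ∀ y, (f ⁻¹' {y}).encard < 4

/-- A smooth homotopy through maps with the property `P`. -/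
def Htpy (φ : E3 → ℝ) (P : ({x // φ x = 0} → E3) → Prop) (f g : {x // φ x = 0} → E3) : Prop :=
  ∃ H : E3 × ℝ → E3, ContDiff ℝ ∞ H ∧ (∀ t ∈ Icc (0 : ℝ) 1, P fun x => H (x, t)) ∧
    (∀ x : {x // φ x = 0}, H (x, 0) = f x) ∧ ∀ x : {x // φ x = 0}, H (x, 1) = g x

section

open Pool.Agent.Lib.Q28

variable [Sf]

theorem imm_iff' {F : E3 → E3} (hF : ContDiff ℝ ∞ F) :
    IsImm Sf.φ (fun x => F x) ↔ Imm F := by
  constructor
  · rintro ⟨G, h1, h2, h3⟩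
    exact imm_congr ⟨h1, fun x hx w hw => h3 ⟨x, hx⟩ w ((tangent_iff hx).1 hw)⟩ hF
      fun x hx => (h2 ⟨x, hx⟩).symm
  · intro h
    exact ⟨F, hF, fun _ => rfl, fun x w hw => h.2 x x.2 w ((tangent_iff x.2).2 hw)⟩

theorem encard_fib (F : E3 → E3) (y : E3) :
    (fib F S y).encard = ((fun x : {x // Sf.φ x = 0} => F x) ⁻¹' {y}).encard := by
  rw [← Subtype.val_injective.encard_image]
  congr 1
  ext x
  simp [fib, S, and_comm]

theorem i4_iff' {F : E3 → E3} (hF : ContDiff ℝ ∞ F) :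
    IsImm4 Sf.φ (fun x => F x) ↔ I4 F := by
  simp only [IsImm4, I4, imm_iff' hF, encard_fib, lt_four]

theorem lift4 {f : {x // Sf.φ x = 0} → E3} (hf : IsImm4 Sf.φ f) :
    ∃ F, I4 F ∧ f = fun x : {x // Sf.φ x = 0} => F x := by
  obtain ⟨F, h1, h2, -⟩ := hf.1
  have e : f = fun x : {x // Sf.φ x = 0} => F x := funext fun x => (h2 x).symm
  exact ⟨F, (i4_iff' h1).1 (e ▸ hf), e⟩

theorem chain {F G : E3 → E3} (hF : Imm F) (hG : Imm G)
    (h : Htpy Sf.φ (IsImm Sf.φ) (fun x => F x) fun x => G x) :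
    Relation.ReflTransGen IStep F G := by
  obtain ⟨H, h1, h2, h3, h4⟩ := h
  have hs : ∀ t, ContDiff ℝ ∞ fun x => H (x, t) := fun t =>
    h1.comp (contDiff_id.prodMk contDiff_const)
  have hi : ∀ t ∈ Icc (0 : ℝ) 1, Imm fun x => H (x, t) := fun t ht => (imm_iff' (hs t)).1 (h2 t ht)
  refine ((Relation.ReflTransGen.single
    (istep_of_eqOn hF (hs 0) fun x hx => h3 ⟨x, hx⟩)).tail
      ⟨fun t x => H (x, t), h1.comp (contDiff_snd.prodMk contDiff_fst), hi, rfl, rfl⟩).tail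
    (istep_of_eqOn (hi 1 ⟨zero_le_one, le_rfl⟩) hG.1 fun x hx => (h4 ⟨x, hx⟩).symm)

theorem of_rel {F G : E3 → E3} (hF : I4 F) (h : Rel F G) :
    Htpy Sf.φ (IsImm4 Sf.φ) (fun x => F x) fun x => G x := by
  obtain ⟨H, a1, a2, a3, a4⟩ := step_of_rel hF h
  exact ⟨fun p => H p.2 p.1, a1.comp (contDiff_snd.prodMk contDiff_fst),
    fun t ht => (i4_iff' (a2 t ht).1.1).2 (a2 t ht), fun x => by simp only [a3],
    fun x => by simp only [a4]⟩

end

theorem result : ∀ φ : E3 → ℝ, IsSurface φ → ∀ f g h : {x // φ x = 0} → E3,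
    IsImm4 φ f → IsImm4 φ g → IsImm4 φ h → Htpy φ (IsImm φ) f g → Htpy φ (IsImm φ) f h →
      Htpy φ (IsImm4 φ) f g ∨ Htpy φ (IsImm4 φ) f h ∨ Htpy φ (IsImm4 φ) g h := by
  intro φ hφ
  let I : Pool.Agent.Lib.Q28.Sf := ⟨φ, hφ.1, hφ.2.1, hφ.2.2.1, hφ.2.2.2⟩
  intro f g h hf hg hh hfg hfh
  obtain ⟨F, hF, rfl⟩ := lift4 (f := f) hf
  obtain ⟨G, hG, rfl⟩ := lift4 (f := g) hg
  obtain ⟨K, hK, rfl⟩ := lift4 (f := h) hh
  rcases Pool.Agent.Lib.Q28.main_three hF hG hK (chain hF.1 hG.1 hfg) (chain hF.1 hK.1 hfh) with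
    a | a | a
  · exact Or.inl (of_rel hF a)
  · exact Or.inr (Or.inl (of_rel hF a))
  · exact Or.inr (Or.inr (of_rel hG a))

end Pool.Agent.Results.MP_31e762_gt.AllGenera
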