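import Pool.Agent.Lib.MP_31e762_gt.Main
import Pool.Agent.Lib.MP_31e762_gt.Bridge

namespace Pool.Agent.Results.MP_31e762_gt.TwoClasses

open scoped Manifold ContDiff
open Set

section General

variable {V T W M : Type} [NormedAddCommGroup V] [NormedSpace ℝ V] [TopologicalSpace T]
  [NormedAddCommGroup W] [NormedSpace ℝ W] [TopologicalSpace M] [ChartedSpace T M]

/-- A smooth immersion of a manifold modelled on `I` into a normed space. -/
def IsImm (I : ModelWithCorners ℝ V T) (f : M → W) : Prop :=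
  ContMDiff I 𝓘(ℝ, W) ∞ f ∧ ∀ x, Function.Injective (mfderiv I 𝓘(ℝ, W) f x)

/-- A smooth map on the product of the manifold with the real line. -/
def IsSmoothFamily (I : ModelWithCorners ℝ V T) (H : M × ℝ → W) : Prop :=
  ContMDiff (I.prod 𝓘(ℝ, ℝ)) 𝓘(ℝ, W) ∞ H

end General

/-- Euclidean three-space. -/
abbrev E3 := EuclideanSpace ℝ (Fin 3)

/-- The unit two-sphere with its standard smooth structure. -/
abbrev S2 := Metric.sphere (0 : E3) 1

/-- A smooth immersion of the sphere without quadruple points. -/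
def IsImm4 (f : S2 → E3) : Prop :=
  IsImm (𝓡 2) f ∧ ∀ y, (f ⁻¹' {y}).encard < 4

/-- A smooth homotopy through immersions without quadruple points. -/
def RegHtpy4 (f g : S2 → E3) : Prop :=
  ∃ H : S2 × ℝ → E3, IsSmoothFamily (𝓡 2) H ∧
    (∀ t ∈ Icc (0 : ℝ) 1, IsImm4 fun x => H (x, t)) ∧
    (∀ x, H (x, 0) = f x) ∧ ∀ x, H (x, 1) = g x

theorem of_rel {f g : S2 → E3} {F G : E3 → E3} (hF : Pool.Agent.Lib.Quad.I4 F)
    (hf : ∀ x : S2, F x = f x) (hg : ∀ x : S2, G x = g x) (h : Pool.Agent.Lib.Quad.Rel F G) :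
    RegHtpy4 f g := by
  obtain ⟨H, a1, a2, a3, a4⟩ := Pool.Agent.Lib.Quad.bridge_out hF h
  exact ⟨H, a1, fun t ht => ⟨⟨(a2 t ht).1, (a2 t ht).2.1⟩, (a2 t ht).2.2⟩,
    fun x => (a3 x).trans (hf x), fun x => (a4 x).trans (hg x)⟩

theorem result : ∀ f g h : S2 → E3, IsImm4 f → IsImm4 g → IsImm4 h →
    RegHtpy4 f g ∨ RegHtpy4 f h ∨ RegHtpy4 g h := by
  intro f g h hf hg hh
  obtain ⟨F, hF, eF⟩ := Pool.Agent.Lib.Quad.bridge_in f hf.1.1 hf.1.2 hf.2
  obtain ⟨G, hG, eG⟩ := Pool.Agent.Lib.Quad.bridge_in g hg.1.1 hg.1.2 hg.2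
  obtain ⟨K, hK, eK⟩ := Pool.Agent.Lib.Quad.bridge_in h hh.1.1 hh.1.2 hh.2
  rcases Pool.Agent.Lib.Quad.main_three hF hG hK with a | a | a
  · exact Or.inl (of_rel hF eF eG a)
  · exact Or.inr (Or.inl (of_rel hF eF eK a))
  · exact Or.inr (Or.inr (of_rel hG eG eK a))

end Pool.Agent.Results.MP_31e762_gt.TwoClasses
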